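import Pool.Agent.Helper33.BF4

/-!
# The Singer conjecture for the Davis manifolds of ALL flag spheres, up to the bad cliques

Let the flag complex `L` of the finite graph `G`, whose vertices are linearly ordered, be a real homology
manifold with the real homology of the sphere of odd dimension `2 m + 1` (`HSph`; for example any flag
triangulation of the `(2 m + 1)`-sphere).  The torsion-free subgroups of finite index of the right-angled
Coxeter group `W G` are then the fundamental groups of closed aspherical (real homology) manifolds of
dimension `n = 2 m + 2`.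

For cliques `S` (possibly empty) and numbers `k` let `B k S` be a set of vertices which contains the
vertices `u` of the link of `S` such that the link of `S ∪ {u}` is not in the class `AQ (2 k - 3)` of the
starting library (`GoodFlags`; this is demanded only for `k ≥ 2` and `k + |S| ≥ n / 2 + 1`).  The class
`AQ k` consists of graphs all of whose full subcomplexes have no `ℓ²`-homology in the degrees above
`k / 2`; it contains the barycentric subdivisions of triangulated `(k - 1)`-spheres.  There is no
condition on the sets `B k S` themselves.  A clique `T` with `i` elements is bad (`Bad`) if for each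
initial segment `R` of `T` with at least two elements missing, all elements of `T \ R` are in
`B (i - |R|) R`; `badCl G B i` is the number of the bad cliques with `i` elements.  (If `B k S` is the
set of all vertices for nonempty `S`, these are the `i`-cliques contained in `B i ∅`.)
-/

set_option autoImplicit false

namespace Pool.Agent.Results.MP_f80465_gt.BadCliques

open Pool.Agent.W907.SG Pool.Agent.TH652.Above Pool.Agent.Y132.SI
open Pool.Agent.Helper33.BF

/-- (1) If `i > n / 2` and there is no bad clique with `i` elements then the reduced `ℓ²`-homology of the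
Davis complex vanishes in the degrees `i` and `n - i`.
(2) In general the Betti numbers of all far enough subgroups `H` of finite index of the commutator
subgroup of `W G`, divided by the index, are at most `f_i / 2^i + ε` in the degrees `i` and `n - i`,
for `i > n / 2`, where `f_i` is the number of the bad cliques with `i` elements; in the middle degree
the quotient is between `|χ| - 2 (f_{m+3} / 2^{m+3} + f_{m+5} / 2^{m+5} + ...) - ε` and
`|χ| + 2 (f_{m+2} / 2^{m+2} + f_{m+4} / 2^{m+4} + ...) + ε` where `|χ|` stands for
`(-1)^{m+1} χ(W G)`. -/
theorem result (m : ℕ) (V : Type) [Fintype V] [LinearOrder V] (G : SimpleGraph V)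
    (hS : HSph (2 * m + 2) G) (B : ℕ → Finset V → Set V) (hB : GoodFlags G B (m + 2)) :
    (∀ i : ℕ, m + 1 < i → badCl G B i = 0 →
      L2Van G i ∧ ∀ j, i + j = 2 * m + 2 → L2Van G j) ∧
    ∀ ε : ℝ, 0 < ε → ∃ E : Finset (W G), (1 : W G) ∉ E ∧
      ∀ H : Subgroup (W G), H ≤ commutator (W G) → H.FiniteIndex →
        (∀ g ∈ E, ∀ x : W G, x * g * x⁻¹ ∉ H) →
        (∀ i : ℕ, m + 1 < i → (Module.finrank ℝ (HInv G H i) : ℝ) ≤
          ((badCl G B i : ℝ) / 2 ^ i + ε) * H.index) ∧
        (∀ i : ℕ, i < m + 1 → (Module.finrank ℝ (HInv G H i) : ℝ) ≤
          ((badCl G B (2 * m + 2 - i) : ℝ) / 2 ^ (2 * m + 2 - i) + ε) * H.index) ∧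
        (Module.finrank ℝ (HInv G H (m + 1)) : ℝ) ≤
          ((-1) ^ (m + 1) * (chiW G : ℝ) + 2 * (flagEven G B m : ℝ) + ε) * H.index ∧
        ((-1) ^ (m + 1) * (chiW G : ℝ) - 2 * (flagOdd G B m : ℝ) - ε) * H.index ≤
          (Module.finrank ℝ (HInv G H (m + 1)) : ℝ) :=
  ⟨fun i hi h0 => l2van_flags_sphere G m hS B hB i hi h0,
    fun ε hε => near_singer_flags G m hS B hB ε hε⟩

end Pool.Agent.Results.MP_f80465_gt.BadCliques
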